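import Pool.Agent.Helper19.Un.D4Stmts

set_option autoImplicit false

/-!
# Module T4: the cusps of type 4
-/

namespace Pool.Agent.Helper19.Un

open scoped BigOperators

/-- two neighbouring integers carry the whole sum -/
theorem t4_two (B y v : ℝ) (hy : 1 ≤ y) (hB : B * y ≤ 1 / 2) (N : Finset ℤ) :
    ∑ n ∈ N, max 0 (B - (v + n) ^ 2 / y) ≤ max 0 B := by
  have hy0 : 0 < y := by linarith
  set m : ℤ := ⌊-v⌋ with hm
  have h1 : (m : ℝ) ≤ -v := Int.floor_le _
  have h2 : -v < m + 1 := Int.lt_floor_add_one _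
  have hBy : B ≤ 1 / 2 / y := by rw [le_div_iff₀ hy0]; exact hB
  have hzero : ∀ n : ℤ, n ≠ m → n ≠ m + 1 → max 0 (B - (v + n) ^ 2 / y) = 0 := by
    intro n hn1 hn2
    apply max_eq_left
    have h3 : 1 ≤ (v + n) ^ 2 := by
      rcases lt_or_gt_of_ne hn1 with h | h
      · have h4 : n + 1 ≤ m := h
        have h5 : (n : ℝ) + 1 ≤ m := by exact_mod_cast h4
        nlinarith
      · have h4 : m + 1 < n := lt_of_le_of_ne h (Ne.symm hn2)
        have h5 : (m : ℝ) + 1 + 1 ≤ n := by exact_mod_cast h4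
        nlinarith
    have h4 : 1 / y ≤ (v + n) ^ 2 / y := by gcongr
    have h5 : 1 / 2 / y ≤ 1 / y := by gcongr; norm_num
    linarith
  have hsub : ∑ n ∈ N, max 0 (B - (v + n) ^ 2 / y) ≤
      ∑ n ∈ ({m, m + 1} : Finset ℤ), max 0 (B - (v + n) ^ 2 / y) := by
    calc ∑ n ∈ N, max 0 (B - (v + n) ^ 2 / y)
        ≤ ∑ n ∈ N ∪ {m, m + 1}, max 0 (B - (v + n) ^ 2 / y) :=
          Finset.sum_le_sum_of_subset_of_nonneg Finset.subset_union_left
            (fun _ _ _ => le_max_left _ _)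
      _ = ∑ n ∈ ({m, m + 1} : Finset ℤ), max 0 (B - (v + n) ^ 2 / y) := by
          symm
          apply Finset.sum_subset Finset.subset_union_right
          intro n _ hn
          rw [Finset.mem_insert, Finset.mem_singleton, not_or] at hn
          exact hzero n hn.1 hn.2
  refine hsub.trans ?_
  have hne : m ≠ m + 1 := by omega
  rw [Finset.sum_pair hne]
  set t : ℝ := v + m with ht
  have ht' : v + ((m + 1 : ℤ) : ℝ) = t + 1 := by push_cast; rw [ht]; ring
  rw [ht']
  have h6 : 0 ≤ t ^ 2 / y := by positivity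
  have h7 : 0 ≤ (t + 1) ^ 2 / y := by positivity
  have h8 : 1 / 2 / y ≤ t ^ 2 / y + (t + 1) ^ 2 / y := by
    rw [← add_div]
    gcongr
    nlinarith [sq_nonneg (2 * t + 1)]
  rcases le_total 0 (B - t ^ 2 / y) with ha | ha <;> rcases le_total 0 (B - (t + 1) ^ 2 / y) with hb | hb
  · rw [max_eq_right ha, max_eq_right hb]
    exact le_max_of_le_right (by linarith)
  · rw [max_eq_right ha, max_eq_left hb]
    exact le_max_of_le_right (by linarith)
  · rw [max_eq_left ha, max_eq_right hb]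
    exact le_max_of_le_right (by linarith)
  · rw [max_eq_left ha, max_eq_left hb]
    simp

theorem t4_term (y r w : ℝ) (hy : 1 ≤ y) :
    6 / 5 - 4 * (3 * (r / 4 + y) ^ 2 + 4 * w ^ 2) / (16 * y) =
      (6 / 5 - 3 / 4 * y - 3 / 8 * r - 3 / 64 * r ^ 2 / y) - w ^ 2 / y := by
  have hy0 : y ≠ 0 := by positivity
  field_simp
  ring

theorem t4_sq (z : Fin 4 → ℝ) (b : Fin 4 → ℤ) : 0 ≤ sq z b :=
  Finset.sum_nonneg (fun _ _ => sq_nonneg _)

theorem st_T4 (hG : ST_GRAM4) : ST_T4 := by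
  intro y z v hy G hev hpar
  classical
  have hy0 : 0 < y := by linarith
  set Bf : (Fin 4 → ℤ) → ℝ :=
    fun b => 6 / 5 - 3 / 4 * y - 3 / 8 * sq z b - 3 / 64 * sq z b ^ 2 / y with hBf
  have hBle : ∀ b, Bf b ≤ (6 / 5 - 3 / 4 * y) - 3 / 8 * sq z b := by
    intro b
    have : 0 ≤ 3 / 64 * sq z b ^ 2 / y := by positivity
    simp only [hBf]; linarith
  have hBy : ∀ b, Bf b * y ≤ 1 / 2 := by
    intro b
    have h1 : Bf b ≤ 6 / 5 - 3 / 4 * y := by
      have := hBle b
      have := t4_sq z b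
      linarith
    have h2 : Bf b * y ≤ (6 / 5 - 3 / 4 * y) * y := mul_le_mul_of_nonneg_right h1 hy0.le
    nlinarith [sq_nonneg (y - 4 / 5)]
  have hterm : ∀ g ∈ G, max 0 (6 / 5 - 4 * (3 * (sq z g.1 / 4 + y) ^ 2 + 4 * (v g.1 + g.2) ^ 2)
      / (16 * y)) = max 0 (Bf g.1 - (v g.1 + g.2) ^ 2 / y) := by
    intro g _
    rw [t4_term y (sq z g.1) (v g.1 + g.2) hy]
  rw [Finset.sum_congr rfl hterm]
  set S : Finset (Fin 4 → ℤ) := G.image Prod.fst with hS
  have hfib : ∑ g ∈ G, max 0 (Bf g.1 - (v g.1 + g.2) ^ 2 / y) ≤ ∑ b ∈ S, max 0 (Bf b) := by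
    rw [← Finset.sum_fiberwise_of_maps_to (s := G) (t := S) (g := Prod.fst)
      (fun g hg => Finset.mem_image_of_mem _ hg)]
    apply Finset.sum_le_sum
    intro b _
    calc ∑ g ∈ G.filter (fun g => g.1 = b), max 0 (Bf g.1 - (v g.1 + g.2) ^ 2 / y)
        = ∑ n ∈ (G.filter (fun g => g.1 = b)).image Prod.snd, max 0 (Bf b - (v b + n) ^ 2 / y) := by
          rw [Finset.sum_image]
          · apply Finset.sum_congr rfl
            intro g hg
            rw [(Finset.mem_filter.1 hg).2]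
          · intro g hg g' hg' h
            have h1 := (Finset.mem_filter.1 hg).2
            have h2 := (Finset.mem_filter.1 hg').2
            exact Prod.ext (h1.trans h2.symm) h
      _ ≤ max 0 (Bf b) := t4_two (Bf b) y (v b) hy (hBy b) _
  refine hfib.trans ?_
  have hSev : ∀ b ∈ S, Even (∑ i, b i) := by
    intro b hb
    obtain ⟨g, hg, rfl⟩ := Finset.mem_image.1 hb
    exact hev g hg
  have hSpar : ∀ b ∈ S, (∀ i, Even (b i)) ∨ ∀ i, Odd (b i) := by
    intro b hb
    obtain ⟨g, hg, rfl⟩ := Finset.mem_image.1 hb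
    exact hpar g hg
  by_cases hy8 : y < 8 / 5
  · rw [if_pos hy8]
    have hsum : ∑ b ∈ S, max 0 (Bf b) = ∑ b ∈ S.filter (fun b => 0 < Bf b), Bf b := by
      rw [Finset.sum_filter]
      apply Finset.sum_congr rfl
      intro b _
      by_cases h : 0 < Bf b
      · rw [if_pos h, max_eq_right h.le]
      · rw [if_neg h, max_eq_left (not_lt.1 h)]
    rw [hsum]
    calc ∑ b ∈ S.filter (fun b => 0 < Bf b), Bf b
        ≤ ∑ b ∈ S.filter (fun b => 0 < Bf b), ((6 / 5 - 3 / 4 * y) - 3 / 8 * sq z b) :=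
          Finset.sum_le_sum (fun b _ => hBle b)
      _ ≤ 6 / 5 - 3 / 4 * y := by
          apply hG z _ (fun b hb => hSpar b (Finset.mem_filter.1 hb).1)
            (fun b hb => hSev b (Finset.mem_filter.1 hb).1)
          · linarith
          · linarith
      _ ≤ 9 / 20 := by linarith
  · rw [if_neg hy8]
    apply le_of_eq
    apply Finset.sum_eq_zero
    intro b _
    apply max_eq_left
    have := hBle b
    have := t4_sq z b
    linarith

end Pool.Agent.Helper19.Un
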