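import Pool.Agent.Helper56.Un.E8Stmts

set_option autoImplicit false

/-!
# Reduction theory for the lattice `ME8`
-/

namespace Pool.Agent.Helper19.Un

open MeasureTheory Topology
open scoped ComplexConjugate

/-- an isotropic vector with bounded `uval` is bounded -/
theorem ered_bound {m : ℕ} {p : Pt m} (hp : p ∈ SD m) (C : ℝ) : ∃ R : ℝ, ∀ w : V m,
    herm w w = 0 → uval w p ≤ C → ‖w‖ ≤ R := by
  have hu : 0 < hgt p := hp
  set H := hgt p with hH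
  set K := Real.sqrt (C * H) with hK
  set R3 := 2 * K / H with hR3
  set R2 := K / Real.sqrt H + R3 * ‖p.2‖ with hR2
  set R1 := K + ‖p.1‖ * R3 + R2 * ‖p.2‖ with hR1
  have hsH : 0 < Real.sqrt H := Real.sqrt_pos.2 hu
  have hK0 : 0 ≤ K := Real.sqrt_nonneg _
  refine ⟨max R1 (max R2 R3), fun w hw hC => ?_⟩
  have h1 : ‖herm (vec p) w‖ ^ 2 ≤ C * H := by
    unfold uval at hC
    rwa [div_le_iff₀ hu] at hC
  have h2 : ‖herm (vec p) w‖ ≤ K := by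
    rw [hK]; exact Real.le_sqrt_of_sq_le h1
  have key := rcs_id w p
  rw [hw, Complex.zero_re, mul_zero, zero_add, ← hH] at key
  have h3 : ‖(H : ℂ) * w.2.2 + conj (herm (vec p) w)‖ ^ 2 ≤ ‖herm (vec p) w‖ ^ 2 := by
    rw [key]
    have : 0 ≤ H * ‖w.2.1 - w.2.2 • p.2‖ ^ 2 := by positivity
    linarith
  have h4 : ‖(H : ℂ) * w.2.2 + conj (herm (vec p) w)‖ ≤ K :=
    (abs_le_of_sq_le_sq' h3 (norm_nonneg _)).2.trans h2
  have h5 : H * ‖w.2.2‖ ≤ 2 * K := by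
    have e : (H : ℂ) * w.2.2 = ((H : ℂ) * w.2.2 + conj (herm (vec p) w))
        - conj (herm (vec p) w) := by ring
    have e2 : ‖(H : ℂ) * w.2.2‖ = H * ‖w.2.2‖ := by
      rw [norm_mul, Complex.norm_real, Real.norm_of_nonneg hu.le]
    rw [← e2, e]
    refine (norm_sub_le _ _).trans ?_
    rw [RCLike.norm_conj]
    linarith
  have h6 : ‖w.2.2‖ ≤ R3 := by
    rw [hR3, le_div_iff₀ hu]; linarith
  have h7 : H * ‖w.2.1 - w.2.2 • p.2‖ ^ 2 ≤ K ^ 2 := by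
    have h8 : 0 ≤ ‖(H : ℂ) * w.2.2 + conj (herm (vec p) w)‖ ^ 2 := sq_nonneg _
    have h9 : ‖herm (vec p) w‖ ^ 2 ≤ K ^ 2 := by
      exact pow_le_pow_left₀ (norm_nonneg _) h2 2
    linarith
  have h10 : ‖w.2.1 - w.2.2 • p.2‖ ≤ K / Real.sqrt H := by
    rw [le_div_iff₀ hsH]
    refine (abs_le_of_sq_le_sq' ?_ hK0).2
    rw [mul_pow, Real.sq_sqrt hu.le]
    linarith
  have h11 : ‖w.2.1‖ ≤ R2 := by
    have e : w.2.1 = (w.2.1 - w.2.2 • p.2) + w.2.2 • p.2 := by abel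
    have h12 : ‖w.2.1‖ ≤ ‖w.2.1 - w.2.2 • p.2‖ + ‖w.2.2 • p.2‖ := by
      calc ‖w.2.1‖ = ‖(w.2.1 - w.2.2 • p.2) + w.2.2 • p.2‖ := by rw [← e]
        _ ≤ _ := norm_add_le _ _
    rw [norm_smul] at h12
    have h13 : ‖w.2.2‖ * ‖p.2‖ ≤ R3 * ‖p.2‖ := mul_le_mul_of_nonneg_right h6 (norm_nonneg _)
    rw [hR2]; linarith
  have h14 : ‖w.1‖ ≤ R1 := by
    have e : conj w.1 = herm (vec p) w - p.1 * conj w.2.2 - inner ℂ w.2.1 p.2 := by
      simp only [herm, vec]; ring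
    have e2 : ‖w.1‖ = ‖herm (vec p) w - p.1 * conj w.2.2 - inner ℂ w.2.1 p.2‖ := by
      rw [← e, RCLike.norm_conj]
    rw [e2]
    have i1 := norm_sub_le (herm (vec p) w - p.1 * conj w.2.2) (inner ℂ w.2.1 p.2)
    have i2 := norm_sub_le (herm (vec p) w) (p.1 * conj w.2.2)
    have i3 : ‖p.1 * conj w.2.2‖ ≤ ‖p.1‖ * R3 := by
      rw [norm_mul, RCLike.norm_conj]
      exact mul_le_mul_of_nonneg_left h6 (norm_nonneg _)
    have i4 : ‖inner ℂ w.2.1 p.2‖ ≤ R2 * ‖p.2‖ :=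
      (norm_inner_le_norm _ _).trans (mul_le_mul_of_nonneg_right h11 (norm_nonneg _))
    rw [hR1]; linarith
  rw [Prod.norm_def, Prod.norm_def]
  exact max_le_max h14 (max_le_max h11 h6)

theorem ered_th_ne : th ≠ 0 := by
  intro h
  have h1 := congrArg Complex.im h
  have h2 : Real.sqrt 3 = 0 := h1
  have h3 : 0 < Real.sqrt 3 := Real.sqrt_pos.2 (by norm_num)
  linarith

theorem ered_fin (hL : ST_ELAT) (hO : ST_EORB) {p : Pt 4} (hp : p ∈ SD 4) (C : ℝ) :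
    {w : V 4 | w ∈ Orb ME8 ∧ uval w p ≤ C}.Finite := by
  obtain ⟨R, hR⟩ := ered_bound hp C
  have h1 := hL.fin (‖th‖ * R)
  have h2 : ((fun w : V 4 => th • w) '' {w : V 4 | w ∈ Orb ME8 ∧ uval w p ≤ C}).Finite := by
    refine h1.subset ?_
    rintro _ ⟨w, ⟨hw, hC⟩, rfl⟩
    refine ⟨(hO.1 w hw).1, ?_⟩
    change ‖th • w‖ ≤ _
    rw [norm_smul]
    exact mul_le_mul_of_nonneg_left (hR w (hO.1 w hw).2.1 hC) (norm_nonneg _)
  refine h2.of_finite_image ?_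
  intro a _ b _ hab
  exact smul_right_injective (V 4) ered_th_ne hab

/-- the orbit vector of the smallest `uval` can be moved to `w0` -/
theorem ered_min (hL : ST_ELAT) (hO : ST_EORB) {p : Pt 4} (hp : p ∈ SD 4) :
    ∃ γ ∈ Gam ME8, ∀ w ∈ Orb ME8, 1 / hgt (act γ p) ≤ uval w (act γ p) := by
  have hfin := ered_fin hL hO hp (uval w0 p)
  have hne : {w : V 4 | w ∈ Orb ME8 ∧ uval w p ≤ uval w0 p}.Nonempty :=
    ⟨w0, w0_mem _, le_refl _⟩
  obtain ⟨w1, ⟨hw1, hw1'⟩, hmin⟩ := Set.exists_min_image _ (fun w => uval w p) hfin hne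
  have hmin' : ∀ w ∈ Orb ME8, uval w1 p ≤ uval w p := by
    intro w hw
    by_cases h : uval w p ≤ uval w0 p
    · exact hmin w ⟨hw, h⟩
    · exact hw1'.trans (not_le.1 h).le
  obtain ⟨g, hg, rfl⟩ := hw1
  have hg' : g⁻¹ ∈ Gam ME8 := (Gam ME8).inv_mem hg
  refine ⟨g⁻¹, hg', fun w hw => ?_⟩
  rw [← uval_w0, uval_act hg'.1 _ hp, uval_act hg'.1 _ hp, inv_inv]
  exact hmin' _ (Orb_smul hg hw)

/-- translating by a Heisenberg translation keeps the property -/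
theorem ered_T {a : ℂ} {b : E 4} (hn : 2 * a.re + ‖b‖ ^ 2 = 0) (hT : T a b ∈ Gam ME8)
    {q : Pt 4} (hq : q ∈ SD 4) (h : ∀ w ∈ Orb ME8, 1 / hgt q ≤ uval w q) :
    ∀ w ∈ Orb ME8, 1 / hgt (act (T a b) q) ≤ uval w (act (T a b) q) := by
  intro w hw
  rw [hgt_T hn, uval_act hT.1 _ hq]
  exact h _ (Orb_smul ((Gam ME8).inv_mem hT) hw)

/-- the covering radius -/
theorem ered_cov (hI : ST_EISO) (hC : ST_EBAR) (ζ : E 4) :
    ∃ b ∈ E8L, 2 / 3 * ‖ζ - b‖ ^ 2 ≤ 1 := by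
  obtain ⟨hI1, hI2, hI3, hI4⟩ := hI
  obtain ⟨n, v, lam, s, t, σ, -, hGA, hl0, hl1, hs0, -, -, -, hsum, -⟩ := hC (xe ζ)
  obtain ⟨A, hA, hsA⟩ : ∃ A : Fin 8 → ℤ, GA A ∧ sq8 (xe ζ) A ≤ 1 := by
    by_contra hcon
    push Not at hcon
    have h1 : ∀ j, 1 < sq8 (xe ζ) (v j) := fun j => hcon _ (hGA j)
    have h2 : ∑ j, lam j * 1 < ∑ j, lam j * sq8 (xe ζ) (v j) := by
      have h3 : ∃ j, lam j ≠ 0 := by
        by_contra h4
        push Not at h4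
        rw [Finset.sum_congr rfl fun j _ => h4 j] at hl1
        simp at hl1
      obtain ⟨j, hj⟩ := h3
      refine Finset.sum_lt_sum (fun i _ => mul_le_mul_of_nonneg_left (h1 i).le (hl0 i))
        ⟨j, Finset.mem_univ _, ?_⟩
      exact mul_lt_mul_of_pos_left (h1 j) (lt_of_le_of_ne (hl0 j) (Ne.symm hj))
    simp only [mul_one] at h2
    rw [hl1, hsum] at h2
    linarith
  have hlin : ∀ (u w : E 4) (i : Fin 8), xe (u - w) i = xe u i - xe w i := by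
    intro u w i
    unfold xe
    rw [inner_sub_right, Complex.sub_re]; ring
  have hxb : ∀ i, xe (∑ j, ((A j : ℝ) / 2) • eE j) i = (A i : ℝ) / 2 := by
    intro i
    unfold xe
    rw [inner_sum, Complex.re_sum]
    have h1 : ∀ j, (inner ℂ (eE i) (((A j : ℝ) / 2) • eE j)).re =
        ((A j : ℝ) / 2) * (if i = j then 3 / 2 else 0) := by
      intro j
      rw [← hI1 i j, ← Complex.coe_smul, inner_smul_right, Complex.re_ofReal_mul]
    simp only [h1, mul_ite, mul_zero, Finset.sum_ite_eq, Finset.mem_univ, if_true]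
    ring
  refine ⟨∑ j, ((A j : ℝ) / 2) • eE j, (hI4 _).2 ⟨A, hA, hxb⟩, ?_⟩
  rw [hI3]
  refine le_trans (le_of_eq ?_) hsA
  unfold sq8
  refine Finset.sum_congr rfl fun j _ => ?_
  rw [hlin, hxb]

/-- Eisenstein integers divisible by `√-3` -/
theorem ered_mod {x y k1 k2 : ℤ} (h : (x : ℂ) + y * om = th * ((k1 : ℂ) + k2 * om)) :
    x + y = 3 * (k1 - k2) := by
  have s3 : Real.sqrt 3 ^ 2 = 3 := Real.sq_sqrt (by norm_num)
  have hre := congrArg Complex.re h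
  have him := congrArg Complex.im h
  simp only [om, th, Complex.add_re, Complex.add_im, Complex.mul_re, Complex.mul_im,
    Complex.intCast_re, Complex.intCast_im] at hre him
  have s3' : Real.sqrt 3 ≠ 0 := by
    have : 0 < Real.sqrt 3 := Real.sqrt_pos.2 (by norm_num)
    exact ne_of_gt this
  have e1 : (x : ℝ) - y / 2 = - 3 / 2 * k2 := by
    linear_combination hre - (k2 / 2 : ℝ) * s3
  have e2 : (y : ℝ) / 2 = k1 - k2 / 2 := by
    have : Real.sqrt 3 * ((y : ℝ) / 2) = Real.sqrt 3 * (k1 - k2 / 2) := by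
      linarith
    exact mul_left_cancel₀ s3' this
  have : (x : ℝ) + y = 3 * (k1 - k2) := by linarith
  exact_mod_cast this

/-- every vector of `E8L` belongs to a Heisenberg translation -/
theorem ered_lift {b : E 4} (hb : b ∈ E8L) : ∃ a, NE8 a b := by
  have hb' := hb
  obtain ⟨hz, ⟨k, ⟨k1, k2, hk⟩, h1⟩, l, ⟨l1, l2, hl⟩, h2⟩ := hb
  have s3 : Real.sqrt 3 ^ 2 = 3 := Real.sq_sqrt (by norm_num)
  have hom : ∀ u v : ℤ, ‖(u : ℂ) + v * om‖ ^ 2 = (u : ℝ) ^ 2 - u * v + v ^ 2 := by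
    intro u v
    rw [← Complex.normSq_eq_norm_sq, Complex.normSq_apply]
    simp only [om, Complex.add_re, Complex.add_im, Complex.mul_re, Complex.mul_im,
      Complex.intCast_re, Complex.intCast_im]
    nlinarith [s3]
  obtain ⟨x0, y0, e0⟩ := hz 0
  obtain ⟨x1, y1, e1⟩ := hz 1
  obtain ⟨x2, y2, e2⟩ := hz 2
  obtain ⟨x3, y3, e3⟩ := hz 3
  have m1 : (x0 + x1 + x2) + (y0 + y1 + y2) = 3 * (k1 - k2) := by
    apply ered_mod
    rw [← hk, ← h1, e0, e1, e2]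
    push_cast
    ring
  have m2 : (x1 - x2 + x3) + (y1 - y2 + y3) = 3 * (l1 - l2) := by
    apply ered_mod
    rw [← hl, ← h2, e1, e2, e3]
    push_cast
    ring
  have hnorm : ‖b‖ ^ 2 = ((x0 : ℝ) ^ 2 - x0 * y0 + y0 ^ 2) + ((x1 : ℝ) ^ 2 - x1 * y1 + y1 ^ 2) +
      ((x2 : ℝ) ^ 2 - x2 * y2 + y2 ^ 2) + ((x3 : ℝ) ^ 2 - x3 * y3 + y3 ^ 2) := by
    rw [EuclideanSpace.norm_sq_eq, Fin.sum_univ_four, e0, e1, e2, e3, hom, hom, hom, hom]
  obtain ⟨c, hc⟩ : ∃ c : ℤ, ‖b‖ ^ 2 = 3 * (c : ℝ) := by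
    have hx0 : x0 = 3 * (k1 - k2) - y0 - (x1 + y1) - (x2 + y2) := by linarith
    have hx3 : x3 = 3 * (l1 - l2) - y3 - (x1 + y1) + (x2 + y2) := by linarith
    refine ⟨3 * (k1 - k2) ^ 2 + 3 * (l1 - l2) ^ 2 - 2 * (k1 - k2) * ((x1 + y1) + (x2 + y2)) -
      2 * (l1 - l2) * ((x1 + y1) - (x2 + y2)) + (x1 + y1) ^ 2 + (x2 + y2) ^ 2 -
      (x0 * y0 + x1 * y1 + x2 * y2 + x3 * y3), ?_⟩
    rw [hnorm, hx0, hx3]
    push_cast
    ring
  refine ⟨th * ((0 : ℤ) + (c : ℤ) * om), ⟨_, ⟨0, c, rfl⟩, rfl⟩, hb', ?_⟩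
  rw [hc]
  simp only [om, th, Complex.add_re, Complex.add_im, Complex.mul_re, Complex.mul_im,
    Complex.intCast_re, Complex.intCast_im]
  push_cast
  nlinarith [s3]

/-- the last step: the height is at least `3 / 2` -/
theorem ered_last (hO : ST_EORB) {q : Pt 4} (hq : q ∈ SD 4)
    (h : ∀ w ∈ Orb ME8, 1 / hgt q ≤ uval w q) (hb : 2 / 3 * ‖q.2‖ ^ 2 ≤ 1)
    (hi : |q.1.im| ≤ Real.sqrt 3 / 2) : q ∈ Sieg 4 2 (3 / 2) := by
  have hu : 0 < hgt q := hq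
  have s3 : Real.sqrt 3 ^ 2 = 3 := Real.sq_sqrt (by norm_num)
  have s30 : 0 ≤ Real.sqrt 3 := Real.sqrt_nonneg _
  obtain ⟨w, hw, hw1⟩ := hO.2.1 0 0 ⟨⟨0, Eis.zero_mem, by simp⟩, E8L.zero_mem, by simp⟩ 1
    ⟨1, 0, by simp⟩ (by simp)
  rw [one_smul] at hw1
  have h1 := h w hw
  have h2 : uval (th • w) q = 3 * uval w q := by
    rw [uval_smul]
    congr 1
    have : th = (Real.sqrt 3 : ℂ) * Complex.I := by
      apply Complex.ext <;> simp [th]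
    rw [this, norm_mul, Complex.norm_I, mul_one, Complex.norm_real, Real.norm_of_nonneg s30, s3]
  have h3 : uval (th • w) q = ‖q.1‖ ^ 2 / hgt q := by
    rw [hw1]
    unfold uval
    congr 2
    simp [herm, vec]
  have h4 : 3 ≤ ‖q.1‖ ^ 2 := by
    have h5 : 3 * (1 / hgt q) ≤ ‖q.1‖ ^ 2 / hgt q := by
      rw [← h3, h2]; linarith
    rw [mul_one_div, div_le_div_iff_of_pos_right hu] at h5
    exact h5
  have h6 : ‖q.1‖ ^ 2 = q.1.re ^ 2 + q.1.im ^ 2 := by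
    rw [← Complex.normSq_eq_norm_sq, Complex.normSq_apply]; ring
  have h7 : q.1.im ^ 2 ≤ 3 / 4 := by
    have : q.1.im ^ 2 ≤ (Real.sqrt 3 / 2) ^ 2 := by
      rw [← sq_abs]; exact pow_le_pow_left₀ (abs_nonneg _) hi 2
    rw [div_pow, s3] at this
    linarith
  have h8 : 2 * q.1.re = -(hgt q + ‖q.2‖ ^ 2) := by
    unfold hgt; ring
  have h9 : 9 ≤ (hgt q + ‖q.2‖ ^ 2) ^ 2 := by
    have : (hgt q + ‖q.2‖ ^ 2) ^ 2 = 4 * q.1.re ^ 2 := by
      have : hgt q + ‖q.2‖ ^ 2 = -(2 * q.1.re) := by rw [h8]; ring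
      rw [this]; ring
    rw [this]; nlinarith
  have h10 : 3 ≤ hgt q + ‖q.2‖ ^ 2 := by
    have : 0 ≤ ‖q.2‖ ^ 2 := sq_nonneg _
    nlinarith
  refine ⟨?_, ?_, by linarith⟩
  · have : ‖q.2‖ ^ 2 ≤ 2 ^ 2 := by linarith
    exact (abs_le_of_sq_le_sq' this (by norm_num)).2
  · have : Real.sqrt 3 ≤ 4 := by nlinarith
    linarith

theorem st_ERED (hL : ST_ELAT) (hU : ST_ECUSP) (hI : ST_EISO) (hO : ST_EORB) (hC : ST_EBAR) :
    ST_ERED := by
  intro p hp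
  obtain ⟨γ1, hγ1, hmin1⟩ := ered_min hL hO hp
  have hq1 : act γ1 p ∈ SD 4 := act_mem hγ1.1 hp
  obtain ⟨b, hb, hcov⟩ := ered_cov hI hC (act γ1 p).2
  obtain ⟨a, ha⟩ := ered_lift (E8L.neg_mem hb)
  have hT := hU.2 _ _ ha
  have hn := hU.1.norm _ _ ha
  have hq2 : act (T a (-b)) (act γ1 p) ∈ SD 4 := act_mem hT.1 hq1
  have hmin2 := ered_T hn hT hq1 hmin1
  set q2 := act (T a (-b)) (act γ1 p) with hq2def
  have s3 : 0 < Real.sqrt 3 := Real.sqrt_pos.2 (by norm_num)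
  set k : ℤ := round (q2.1.im / Real.sqrt 3) with hk
  have ha' : NE8 (((-k : ℤ) : ℂ) * (Real.sqrt 3 : ℂ) * Complex.I) 0 :=
    (hU.1.cen _).2 ⟨-k, rfl⟩
  have hT' := hU.2 _ _ ha'
  have hn' := hU.1.norm _ _ ha'
  have hmin3 := ered_T hn' hT' hq2 hmin2
  have hq3 := act_mem hT'.1 hq2
  have hact : act (T (((-k : ℤ) : ℂ) * (Real.sqrt 3 : ℂ) * Complex.I) 0 * (T a (-b) * γ1)) p
      = act (T (((-k : ℤ) : ℂ) * (Real.sqrt 3 : ℂ) * Complex.I) 0) q2 := by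
    rw [act_mul _ ((UG 4).mul_mem hT.1 hγ1.1) hp, act_mul _ hγ1.1 hp]
  refine ⟨_, (Gam ME8).mul_mem hT' ((Gam ME8).mul_mem hT hγ1), ?_⟩
  rw [hact]
  refine ⟨hmin3, ered_last hO hq3 hmin3 ?_ ?_⟩
  · rw [act_T]
    change 2 / 3 * ‖q2.2 + 0‖ ^ 2 ≤ 1
    rw [add_zero, hq2def, act_T]
    change 2 / 3 * ‖(act γ1 p).2 + -b‖ ^ 2 ≤ 1
    rw [← sub_eq_add_neg]
    exact hcov
  · rw [act_T]
    have e1 : (q2.1 - inner ℂ (0 : E 4) q2.2 + ((-k : ℤ) : ℂ) * (Real.sqrt 3 : ℂ) * Complex.I).im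
        = q2.1.im - k * Real.sqrt 3 := by
      simp [Complex.add_im, Complex.mul_im, Complex.mul_re]
      ring
    change |(q2.1 - inner ℂ (0 : E 4) q2.2
      + ((-k : ℤ) : ℂ) * (Real.sqrt 3 : ℂ) * Complex.I).im| ≤ _
    rw [e1]
    have h1 := abs_sub_round (q2.1.im / Real.sqrt 3)
    rw [← hk] at h1
    have e2 : q2.1.im - k * Real.sqrt 3 = (q2.1.im / Real.sqrt 3 - k) * Real.sqrt 3 := by
      field_simp
    rw [e2, abs_mul, abs_of_pos s3]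
    have := mul_le_mul_of_nonneg_right h1 s3.le
    linarith

end Pool.Agent.Helper19.Un
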